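import Mathlib

/-!
# Outerplanarity and 3-connectivity are not determined by the Tutte polynomial

* Two Tutte-equivalent graphs with 6 vertices and 10 edges, one outerplanar and the other not.
* Two connected Tutte-equivalent graphs with 7 vertices and 12 edges, one 3-connected and the
  other not.

The equality of the Tutte polynomials is proved by computing, for all `s` and `t`, the number of
edge sets with `s` edges and `t` components, with a verified algorithm.
-/

namespace Pool.Agent.Results.MP_f03b0a_co.TutteEquivalent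

open Finset

/-- A graph with vertex set `V` and edge set `E`, loops and multiple edges allowed. -/
structure MGraph (V E : Type) where
  /-- the ends of an edge -/
  ends : E → Sym2 V

variable {V E : Type}

/-- The simple graph underlying the spanning subgraph `(V, A)`. -/
def MGraph.span (G : MGraph V E) (A : Finset E) : SimpleGraph V :=
  SimpleGraph.fromEdgeSet {z | ∃ e ∈ A, G.ends e = z}

/-- The number of connected components of `(V, A)`. -/
noncomputable def MGraph.comps (G : MGraph V E) (A : Finset E) : ℕ :=
  Nat.card (G.span A).ConnectedComponent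

/-- The rank `r(A) = |V| - k(V, A)`. -/
noncomputable def MGraph.rk (G : MGraph V E) (A : Finset E) : ℕ := Nat.card V - G.comps A

/-- The Tutte polynomial as a polynomial in the variables `X 0` and `X 1`. -/
noncomputable def MGraph.tutte [Fintype E] (G : MGraph V E) : MvPolynomial (Fin 2) ℤ :=
  ∑ A : Finset E, (MvPolynomial.X 0 - 1) ^ (G.rk Finset.univ - G.rk A) *
    (MvPolynomial.X 1 - 1) ^ (A.card - G.rk A)

/-- The underlying simple graph. -/
def MGraph.simple [Fintype E] (G : MGraph V E) : SimpleGraph V := G.span Finset.univ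

/-- `G` is connected. -/
def MGraph.IsConnected [Fintype E] (G : MGraph V E) : Prop := G.simple.Connected

/-- `G` has at least 4 vertices and stays connected after deleting at most 2 vertices. -/
def MGraph.Is3Connected [Fintype E] [Fintype V] (G : MGraph V E) : Prop :=
  4 ≤ Fintype.card V ∧ ∀ S : Finset V, S.card ≤ 2 → (G.simple.induce {v | v ∉ S}).Connected

/-- `G` is outerplanar: the vertices can be placed on a circle (in the cyclic order given by the
bijection `f`) so that no two edges cross. (Loops and parallel edges play no role.) -/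
def MGraph.IsOuterplanar [Fintype E] [Fintype V] (G : MGraph V E) : Prop :=
  ∃ f : V ≃ Fin (Fintype.card V), ∀ a b c d, G.simple.Adj a b → G.simple.Adj c d →
    ¬ (f a < f c ∧ f c < f b ∧ f b < f d)

theorem MGraph.span_adj (G : MGraph V E) (A : Finset E) {u v : V} :
    (G.span A).Adj u v ↔ (∃ e ∈ A, G.ends e = s(u, v)) ∧ u ≠ v := by
  unfold MGraph.span
  rw [SimpleGraph.fromEdgeSet_adj]
  rfl

/-! ## Counting edge sets by size and number of components -/

/-- A device which makes the kernel evaluate `x` first. -/
def force {α : Type} (x : ℕ) (f : ℕ → α) : α :=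
  match x with
  | 0 => f 0
  | n + 1 => f (n + 1)

theorem force_eq {α : Type} (x : ℕ) (f : ℕ → α) : force x f = f x := by
  cases x <;> rfl

/-- Replace the label `b` by `a`. -/
def relabel (a b : ℕ) : List ℕ → List ℕ
  | [] => []
  | c :: l => force (if c = b then a else c) (fun x => x :: relabel a b l)

theorem relabel_eq (a b : ℕ) (l : List ℕ) :
    relabel a b l = l.map (fun c => if c = b then a else c) := by
  induction l with
  | nil => rfl
  | cons c l ih => rw [relabel, force_eq, ih]; rfl

/-- The number of ways to choose `s` of the listed edges so that together with the present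
partition (given by labels `l` with `k` classes) there are `t` components. -/
def cnt : List (ℕ × ℕ) → List ℕ → ℕ → ℕ → ℕ → ℕ
  | [], _, k, s, t => if s = 0 ∧ k = t then 1 else 0
  | e :: es, l, k, s, t => cnt es l k s t +
      match s with
      | 0 => 0
      | s + 1 => force (l.getD e.1 0) (fun a => force (l.getD e.2 0) (fun b =>
          if a = b then cnt es l k s t else cnt es (relabel a b l) (k - 1) s t))

theorem cnt_cons_zero (e : ℕ × ℕ) (es : List (ℕ × ℕ)) (l : List ℕ) (k t : ℕ) :
    cnt (e :: es) l k 0 t = cnt es l k 0 t := by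
  rw [cnt.eq_def]
  rfl

theorem cnt_cons_succ (e : ℕ × ℕ) (es : List (ℕ × ℕ)) (l : List ℕ) (k s t : ℕ) :
    cnt (e :: es) l k (s + 1) t = cnt es l k (s + 1) t +
      (if l.getD e.1 0 = l.getD e.2 0 then cnt es l k s t
        else cnt es (relabel (l.getD e.1 0) (l.getD e.2 0) l) (k - 1) s t) := by
  rw [cnt.eq_def]
  simp only [force_eq]

/-- The labels `l` describe the components of `(V, A)`, and `k` is their number. -/
structure Inv {n : ℕ} (G : MGraph (Fin n) E) (A : Finset E) (l : List ℕ) (k : ℕ) : Prop where
  len : l.length = n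
  iff : ∀ u v : Fin n, l.getD u.val 0 = l.getD v.val 0 ↔ (G.span A).Reachable u v
  card : k = (Finset.univ.image (fun v : Fin n => l.getD v.val 0)).card

theorem getD_relabel {n : ℕ} {l : List ℕ} (hl : l.length = n) (a b : ℕ) (v : Fin n) :
    (relabel a b l).getD v.val 0 = if l.getD v.val 0 = b then a else l.getD v.val 0 := by
  have hv : v.val < l.length := by rw [hl]; exact v.isLt
  rw [relabel_eq, List.getD_eq_getElem _ _ (by rw [List.length_map]; exact hv),
    List.getD_eq_getElem _ _ hv, List.getElem_map]

theorem Inv.comps {n : ℕ} {G : MGraph (Fin n) E} {A : Finset E} {l : List ℕ} {k : ℕ}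
    (h : Inv G A l k) : G.comps A = k := by
  rw [h.card, MGraph.comps]
  let φ : (G.span A).ConnectedComponent →
      (Finset.univ.image (fun v : Fin n => l.getD v.val 0) : Finset ℕ) := fun c =>
    c.lift (fun v => ⟨l.getD v.val 0, Finset.mem_image_of_mem _ (Finset.mem_univ v)⟩)
      (fun u v p _ => Subtype.ext ((h.iff u v).2 ⟨p⟩))
  have hφ : Function.Bijective φ := by
    constructor
    · intro c d
      refine SimpleGraph.ConnectedComponent.ind₂ (fun u v huv => ?_) c d
      have h1 : l.getD u.val 0 = l.getD v.val 0 := congrArg Subtype.val huv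
      exact SimpleGraph.ConnectedComponent.eq.2 ((h.iff u v).1 h1)
    · rintro ⟨x, hx⟩
      obtain ⟨v, _, hv⟩ := Finset.mem_image.1 hx
      exact ⟨(G.span A).connectedComponentMk v, Subtype.ext hv⟩
  rw [Nat.card_eq_of_bijective φ hφ, Nat.card_eq_fintype_card, Fintype.card_coe]

theorem span_mono [DecidableEq E] (G : MGraph V E) (A : Finset E) (e : E) :
    G.span A ≤ G.span (insert e A) := by
  intro u v h
  rw [MGraph.span_adj] at h ⊢
  obtain ⟨⟨f, hf, hfe⟩, hne⟩ := h
  exact ⟨⟨f, Finset.mem_insert_of_mem hf, hfe⟩, hne⟩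

theorem inv_insert {n : ℕ} [DecidableEq E] {G : MGraph (Fin n) E} {A : Finset E} {l : List ℕ}
    {k : ℕ} (h : Inv G A l k) {e : E} {x y : Fin n} (he : G.ends e = s(x, y)) :
    (l.getD x.val 0 = l.getD y.val 0 → Inv G (insert e A) l k) ∧
    (l.getD x.val 0 ≠ l.getD y.val 0 →
      Inv G (insert e A) (relabel (l.getD x.val 0) (l.getD y.val 0) l) (k - 1)) := by
  have hreach : ∀ {m : Fin n → ℕ}, (∀ u v : Fin n, l.getD u.val 0 = l.getD v.val 0 → m u = m v) →
      m x = m y → ∀ u v, (G.span (insert e A)).Reachable u v → m u = m v := by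
    intro m hm hxy u v huv
    obtain ⟨p⟩ := huv
    induction p with
    | nil => rfl
    | cons hadj q ih =>
      rename_i a b c
      rw [← ih]
      rw [MGraph.span_adj] at hadj
      obtain ⟨⟨f, hf, hfe⟩, hne⟩ := hadj
      rcases Finset.mem_insert.1 hf with rfl | hf
      · rw [he, Sym2.eq_iff] at hfe
        rcases hfe with ⟨rfl, rfl⟩ | ⟨rfl, rfl⟩
        · exact hxy
        · exact hxy.symm
      · apply hm
        rw [h.iff]
        exact (show (G.span A).Adj a b from (G.span_adj A).2 ⟨⟨f, hf, hfe⟩, hne⟩).reachable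
  have hxy : (G.span (insert e A)).Reachable x y := by
    by_cases hne : x = y
    · rw [hne]
    · exact (show (G.span (Insert.insert e A)).Adj x y from
        (G.span_adj _).2 ⟨⟨e, Finset.mem_insert_self _ _, he⟩, hne⟩).reachable
  have hmono : ∀ {u v}, l.getD u.val 0 = l.getD v.val 0 →
      (G.span (Insert.insert e A)).Reachable u v := fun {u v} huv =>
    ((h.iff u v).1 huv).mono (span_mono G A e)
  constructor
  · intro heq
    refine ⟨h.len, fun u v => ⟨hmono, ?_⟩, h.card⟩
    exact hreach (m := fun v => l.getD v.val 0) (fun _ _ h => h) heq u v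
  · intro hne
    have hget := fun v : Fin n =>
      getD_relabel h.len (l.getD x.val 0) (l.getD y.val 0) v
    refine ⟨?_, fun u v => ?_, ?_⟩
    · rw [relabel_eq, List.length_map, h.len]
    · rw [hget, hget]
      constructor
      · intro huv
        split_ifs at huv with h1 h2 h2
        · exact hmono (h1.trans h2.symm)
        · exact (hmono h1).trans (hxy.symm.trans (hmono huv))
        · exact (hmono huv).trans (hxy.trans (hmono h2.symm))
        · exact hmono huv
      · intro huv
        refine hreach (m := fun v => if l.getD v.val 0 = l.getD y.val 0 then l.getD x.val 0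
          else l.getD v.val 0) (fun u v huv => by simp only [huv]) ?_ u v huv
        simp only [if_true]
        rw [if_neg hne]
    · have himg : (Finset.univ.image (fun v : Fin n =>
          (relabel (l.getD x.val 0) (l.getD y.val 0) l).getD v.val 0)) =
          (Finset.univ.image (fun v : Fin n => l.getD v.val 0)).erase (l.getD y.val 0) := by
        ext z
        rw [Finset.mem_image, Finset.mem_erase, Finset.mem_image]
        constructor
        · rintro ⟨v, _, rfl⟩
          rw [hget]
          split_ifs with h1
          · exact ⟨hne, x, Finset.mem_univ _, rfl⟩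
          · exact ⟨h1, v, Finset.mem_univ _, rfl⟩
        · rintro ⟨hz, v, _, rfl⟩
          refine ⟨v, Finset.mem_univ _, ?_⟩
          rw [hget, if_neg hz]
      rw [himg, Finset.card_erase_of_mem (Finset.mem_image_of_mem _ (Finset.mem_univ y)), h.card]

theorem card_cnt {n : ℕ} [DecidableEq E] (G : MGraph (Fin n) E) (g : E → Fin n × Fin n)
    (hg : ∀ e, G.ends e = s((g e).1, (g e).2)) (es : List E) :
    es.Nodup → ∀ (A : Finset E) (l : List ℕ) (k s t : ℕ), (∀ e ∈ es, e ∉ A) → Inv G A l k →
      ((es.toFinset.powerset).filter (fun B => B.card = s ∧ G.comps (A ∪ B) = t)).card =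
        cnt (es.map (fun e => ((g e).1.val, (g e).2.val))) l k s t := by
  induction es with
  | nil =>
    intro _ A l k s t _ h
    rw [List.toFinset_nil, Finset.powerset_empty, List.map_nil, cnt, Finset.filter_singleton,
      Finset.card_empty, Finset.union_empty, h.comps]
    by_cases hst : s = 0 ∧ k = t
    · rw [if_pos hst, if_pos ⟨hst.1.symm, hst.2⟩, Finset.card_singleton]
    · rw [if_neg hst, if_neg (fun h' => hst ⟨h'.1.symm, h'.2⟩), Finset.card_empty]
  | cons e es ih =>
    intro hnd A l k s t hA h
    obtain ⟨hne, hnd'⟩ := List.nodup_cons.1 hnd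
    have heS : e ∉ es.toFinset := by rwa [List.mem_toFinset]
    have heA : e ∉ A := hA e List.mem_cons_self
    have hinj : Set.InjOn (insert e) {B : Finset E | B ∈ es.toFinset.powerset} := by
      intro B hB C hC hBC
      have hB' : e ∉ B := fun h => heS (Finset.mem_powerset.1 hB h)
      have hC' : e ∉ C := fun h => heS (Finset.mem_powerset.1 hC h)
      rw [← Finset.erase_insert hB', ← Finset.erase_insert hC', hBC]
    have hdisj : Disjoint (es.toFinset.powerset)
        ((es.toFinset.powerset).image (insert e)) := by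
      rw [Finset.disjoint_left]
      intro B hB hB'
      obtain ⟨C, _, rfl⟩ := Finset.mem_image.1 hB'
      exact heS (Finset.mem_powerset.1 hB (Finset.mem_insert_self e C))
    rw [List.toFinset_cons, Finset.powerset_insert, Finset.filter_union,
      Finset.card_union_of_disjoint (Finset.disjoint_filter_filter hdisj),
      ih hnd' A l k s t (fun f hf => hA f (List.mem_cons_of_mem _ hf)) h, List.map_cons]
    rw [Finset.filter_image, Finset.card_image_of_injOn (hinj.mono (by
      intro B hB
      exact (Finset.mem_filter.1 hB).1))]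
    have hcard : ∀ B ∈ es.toFinset.powerset, (insert e B).card = B.card + 1 := by
      intro B hB
      exact Finset.card_insert_of_notMem (fun h => heS (Finset.mem_powerset.1 hB h))
    cases s with
    | zero =>
      rw [cnt_cons_zero, Nat.add_eq_left, Finset.card_eq_zero, Finset.filter_eq_empty_iff]
      intro B hB hc
      rw [hcard B hB] at hc
      exact absurd hc.1 (Nat.succ_ne_zero _)
    | succ s =>
      have hins := inv_insert h (hg e)
      have hA' : ∀ f ∈ es, f ∉ insert e A := by
        intro f hf hmem
        rcases Finset.mem_insert.1 hmem with rfl | hmem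
        · exact hne hf
        · exact hA f (List.mem_cons_of_mem _ hf) hmem
      have hfil : (es.toFinset.powerset).filter
            (fun B => (insert e B).card = s + 1 ∧ G.comps (A ∪ insert e B) = t) =
          (es.toFinset.powerset).filter
            (fun B => B.card = s ∧ G.comps (insert e A ∪ B) = t) := by
        apply Finset.filter_congr
        intro B hB
        rw [hcard B hB, Finset.union_insert, Finset.insert_union]
        constructor
        · rintro ⟨h1, h2⟩
          exact ⟨Nat.succ_injective h1, h2⟩
        · rintro ⟨h1, h2⟩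
          exact ⟨by rw [h1], h2⟩
      rw [hfil, cnt_cons_succ]
      congr 1
      by_cases heq : l.getD (g e).1.val 0 = l.getD (g e).2.val 0
      · rw [if_pos heq]
        exact ih hnd' _ l k s t hA' (hins.1 heq)
      · rw [if_neg heq]
        exact ih hnd' _ _ _ s t hA' (hins.2 heq)

theorem inv_empty {n : ℕ} (G : MGraph (Fin n) E) : Inv G ∅ (List.range n) n := by
  have hget : ∀ v : Fin n, (List.range n).getD v.val 0 = v.val := by
    intro v
    rw [List.getD_eq_getElem _ _ (by rw [List.length_range]; exact v.isLt), List.getElem_range]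
  refine ⟨List.length_range, fun u v => ?_, ?_⟩
  · rw [hget, hget]
    constructor
    · intro h
      rw [Fin.ext h]
    · rintro ⟨p⟩
      cases p with
      | nil => rfl
      | cons hadj _ =>
        rw [MGraph.span_adj] at hadj
        obtain ⟨⟨e, he, _⟩, _⟩ := hadj
        exact absurd he (Finset.notMem_empty e)
  · have : (fun v : Fin n => (List.range n).getD v.val 0) = Fin.val := funext hget
    rw [this, Finset.card_image_of_injective _ Fin.val_injective, Finset.card_univ,
      Fintype.card_fin]

/-- The number of edge sets with `s` edges and `t` components. -/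
noncomputable def num {n m : ℕ} (G : MGraph (Fin n) (Fin m)) (s t : ℕ) : ℕ :=
  ((Finset.univ : Finset (Finset (Fin m))).filter (fun A => A.card = s ∧ G.comps A = t)).card

theorem num_eq {n m : ℕ} (G : MGraph (Fin n) (Fin m)) (g : Fin m → Fin n × Fin n)
    (hg : ∀ e, G.ends e = s((g e).1, (g e).2)) (s t : ℕ) :
    num G s t = cnt ((List.finRange m).map (fun e => ((g e).1.val, (g e).2.val)))
      (List.range n) n s t := by
  have h := card_cnt G g hg (List.finRange m) (List.nodup_finRange m) ∅ (List.range n) n s t
    (fun e _ => Finset.notMem_empty e) (inv_empty G)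
  rw [← h, num]
  congr 1
  ext A
  rw [Finset.mem_filter, Finset.mem_filter, Finset.empty_union]
  simp only [Finset.mem_univ, true_and, Finset.mem_powerset, iff_and_self]
  intro _ e _
  rw [List.mem_toFinset]
  exact List.mem_finRange e

theorem comps_le {n m : ℕ} (G : MGraph (Fin n) (Fin m)) (A : Finset (Fin m)) :
    G.comps A ≤ n := by
  have : Nat.card (G.span A).ConnectedComponent ≤ Nat.card (Fin n) :=
    Nat.card_le_card_of_surjective (G.span A).connectedComponentMk Quot.mk_surjective
  rwa [Nat.card_eq_fintype_card (α := Fin n), Fintype.card_fin] at this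

theorem sum_eq {n m : ℕ} (G : MGraph (Fin n) (Fin m)) {R : Type} [AddCommMonoid R]
    (φ : ℕ → ℕ → R) : ∑ A : Finset (Fin m), φ A.card (G.comps A) =
      ∑ p ∈ Finset.range (m + 1) ×ˢ Finset.range (n + 1), num G p.1 p.2 • φ p.1 p.2 := by
  have hmaps : ∀ A ∈ (Finset.univ : Finset (Finset (Fin m))),
      (A.card, G.comps A) ∈ Finset.range (m + 1) ×ˢ Finset.range (n + 1) := by
    intro A _
    rw [Finset.mem_product, Finset.mem_range, Finset.mem_range]
    refine ⟨Nat.lt_succ_of_le ?_, Nat.lt_succ_of_le (comps_le G A)⟩
    exact (Finset.card_le_univ A).trans (by rw [Fintype.card_fin])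
  rw [← Finset.sum_fiberwise_of_maps_to hmaps]
  apply Finset.sum_congr rfl
  rintro ⟨s, t⟩ _
  rw [num, ← Finset.sum_const]
  have hfil : (Finset.univ : Finset (Finset (Fin m))).filter
      (fun A => (A.card, G.comps A) = (s, t)) =
      Finset.univ.filter (fun A => A.card = s ∧ G.comps A = t) := by
    apply Finset.filter_congr
    intro A _
    rw [Prod.mk.injEq]
  rw [hfil]
  apply Finset.sum_congr rfl
  intro A hA
  rw [Finset.mem_filter] at hA
  rw [hA.2.1, hA.2.2]

theorem tutte_eq {n m : ℕ} (G H : MGraph (Fin n) (Fin m))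
    (h : ∀ s ≤ m, ∀ t ≤ n, num G s t = num H s t) : G.tutte = H.tutte := by
  have hrk : G.rk Finset.univ = H.rk Finset.univ := by
    have key : ∀ G : MGraph (Fin n) (Fin m), ∀ t, num G m t =
        if G.comps Finset.univ = t then 1 else 0 := by
      intro G t
      rw [num]
      have : (Finset.univ : Finset (Finset (Fin m))).filter
          (fun A => A.card = m ∧ G.comps A = t) =
          if G.comps Finset.univ = t then {Finset.univ} else ∅ := by
        ext A
        rw [Finset.mem_filter]
        have hA : A.card = m ↔ A = Finset.univ := by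
          rw [← Finset.card_eq_iff_eq_univ, Fintype.card_fin]
        rw [hA]
        split_ifs with ht
        · simp only [Finset.mem_univ, true_and, Finset.mem_singleton]
          constructor
          · exact fun h => h.1
          · rintro rfl
            exact ⟨rfl, ht⟩
        · simp only [Finset.mem_univ, true_and, Finset.notMem_empty, iff_false]
          rintro ⟨rfl, h⟩
          exact ht h
      rw [this]
      split_ifs <;> rfl
    have h1 := h m le_rfl (G.comps Finset.univ) (comps_le G _)
    rw [key G, key H, if_pos rfl] at h1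
    have h2 : H.comps Finset.univ = G.comps Finset.univ := by
      by_contra hne
      rw [if_neg hne] at h1
      exact absurd h1 (by norm_num)
    rw [MGraph.rk, MGraph.rk, h2]
  have e : ∀ K : MGraph (Fin n) (Fin m), K.rk Finset.univ = G.rk Finset.univ → K.tutte =
      ∑ p ∈ Finset.range (m + 1) ×ˢ Finset.range (n + 1), num K p.1 p.2 •
        ((MvPolynomial.X 0 - 1 : MvPolynomial (Fin 2) ℤ) ^
          (G.rk Finset.univ - (Nat.card (Fin n) - p.2)) *
        (MvPolynomial.X 1 - 1) ^ (p.1 - (Nat.card (Fin n) - p.2))) := by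
    intro K hK
    rw [← sum_eq K (fun s t => (MvPolynomial.X 0 - 1 : MvPolynomial (Fin 2) ℤ) ^
          (G.rk Finset.univ - (Nat.card (Fin n) - t)) *
        (MvPolynomial.X 1 - 1) ^ (s - (Nat.card (Fin n) - t)))]
    rw [MGraph.tutte, hK]
    rfl
  rw [e G rfl, e H hrk.symm]
  apply Finset.sum_congr rfl
  rintro ⟨s, t⟩ hp
  rw [Finset.mem_product, Finset.mem_range, Finset.mem_range] at hp
  rw [h s (by omega) t (by omega)]

/-- The graph with a given list of edges. -/
def ofList {n : ℕ} (L : List (Fin n × Fin n)) : MGraph (Fin n) (Fin L.length) where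
  ends e := s((L.get e).1, (L.get e).2)

/-! ## The first pair -/

/-- The edges of the outerplanar graph. -/
def outL : List (Fin 6 × Fin 6) :=
  [(0, 1), (0, 1), (0, 2), (2, 1), (0, 3), (3, 4), (3, 4), (4, 1), (4, 5), (5, 1)]

/-- The edges of the graph which is not outerplanar. -/
def nonL : List (Fin 6 × Fin 6) :=
  [(0, 1), (0, 1), (0, 2), (2, 3), (3, 1), (3, 4), (4, 1), (3, 5), (5, 1), (5, 1)]

/-- The outerplanar graph. -/
def outG : MGraph (Fin 6) (Fin 10) := ofList outL

/-- The graph which is not outerplanar. -/
def nonG : MGraph (Fin 6) (Fin 10) := ofList nonL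

theorem cnt_first : ∀ s ≤ 10, ∀ t ≤ 6,
    cnt [(0, 1), (0, 1), (0, 2), (2, 1), (0, 3), (3, 4), (3, 4), (4, 1), (4, 5), (5, 1)]
      [0, 1, 2, 3, 4, 5] 6 s t =
    cnt [(0, 1), (0, 1), (0, 2), (2, 3), (3, 1), (3, 4), (4, 1), (3, 5), (5, 1), (5, 1)]
      [0, 1, 2, 3, 4, 5] 6 s t := by
  decide +kernel

theorem tutte_first : outG.tutte = nonG.tutte := by
  apply tutte_eq
  intro s hs t ht
  rw [num_eq outG (fun e => outL.get e) (fun e => rfl), num_eq nonG (fun e => nonL.get e)
    (fun e => rfl)]
  exact cnt_first s hs t ht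

/-- Adjacency in the underlying simple graph. -/
def adjB {n : ℕ} (L : List (Fin n × Fin n)) (a b : Fin n) : Bool :=
  L.any (fun p => p == (a, b) || p == (b, a)) && a != b

theorem adj_ofList {n : ℕ} (L : List (Fin n × Fin n)) (a b : Fin n) :
    (ofList L).simple.Adj a b ↔ adjB L a b = true := by
  rw [MGraph.simple, MGraph.span_adj, adjB, Bool.and_eq_true, bne_iff_ne, List.any_eq_true]
  constructor
  · rintro ⟨⟨e, _, he⟩, hne⟩
    refine ⟨⟨L.get e, List.get_mem _ _, ?_⟩, hne⟩
    have he' : s((L.get e).1, (L.get e).2) = s(a, b) := he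
    rw [Sym2.eq_iff] at he'
    rw [Bool.or_eq_true, beq_iff_eq, beq_iff_eq]
    rcases he' with ⟨h1, h2⟩ | ⟨h1, h2⟩
    · exact Or.inl (Prod.ext h1 h2)
    · exact Or.inr (Prod.ext h1 h2)
  · rintro ⟨⟨p, hp, h⟩, hne⟩
    obtain ⟨e, he⟩ := List.get_of_mem hp
    refine ⟨⟨e, Finset.mem_univ _, ?_⟩, hne⟩
    show s((L.get e).1, (L.get e).2) = s(a, b)
    rw [he]
    rw [Bool.or_eq_true, beq_iff_eq, beq_iff_eq] at h
    rcases h with rfl | rfl
    · rfl
    · exact Sym2.eq_swap

theorem outerplanar_outG : outG.IsOuterplanar := by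
  let σ : Equiv.Perm (Fin 6) := Equiv.swap 1 2 * Equiv.swap 3 5
  have key : ∀ a b c d : Fin 6, adjB outL a b = true → adjB outL c d = true →
      ¬ ((σ a).val < (σ c).val ∧ (σ c).val < (σ b).val ∧ (σ b).val < (σ d).val) := by
    decide +kernel
  refine ⟨σ.trans (finCongr (Fintype.card_fin 6).symm), ?_⟩
  intro a b c d hab hcd h
  exact key a b c d ((adj_ofList outL a b).1 hab) ((adj_ofList outL c d).1 hcd) h

theorem crossing_nonG : ∀ σ : Equiv.Perm (Fin 6), ∃ a b c d : Fin 6, adjB nonL a b = true ∧
    adjB nonL c d = true ∧ (σ a < σ c ∧ σ c < σ b ∧ σ b < σ d) := by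
  decide +kernel

theorem not_outerplanar_nonG : ¬ nonG.IsOuterplanar := by
  rintro ⟨f, hf⟩
  obtain ⟨a, b, c, d, hab, hcd, h⟩ :=
    crossing_nonG (f.trans (finCongr (Fintype.card_fin 6)))
  exact hf a b c d ((adj_ofList nonL a b).2 hab) ((adj_ofList nonL c d).2 hcd) h

/-! ## The second pair -/

/-- The edges of the 3-connected graph. -/
def triL : List (Fin 7 × Fin 7) :=
  [(0, 4), (0, 5), (0, 6), (0, 6), (1, 3), (1, 5), (1, 6), (2, 3), (2, 4), (2, 6), (3, 6),
    (4, 5)]

/-- The edges of the graph which is not 3-connected. -/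
def twoL : List (Fin 7 × Fin 7) :=
  [(0, 3), (0, 4), (0, 4), (1, 4), (1, 5), (1, 6), (2, 4), (2, 5), (2, 6), (3, 5), (3, 6),
    (5, 6)]

/-- The 3-connected graph. -/
def triG : MGraph (Fin 7) (Fin 12) := ofList triL

/-- The graph which is not 3-connected. -/
def twoG : MGraph (Fin 7) (Fin 12) := ofList twoL

theorem cnt_second : ∀ s ≤ 12, ∀ t ≤ 7,
    cnt [(0, 4), (0, 5), (0, 6), (0, 6), (1, 3), (1, 5), (1, 6), (2, 3), (2, 4), (2, 6), (3, 6),
      (4, 5)] [0, 1, 2, 3, 4, 5, 6] 7 s t =
    cnt [(0, 3), (0, 4), (0, 4), (1, 4), (1, 5), (1, 6), (2, 4), (2, 5), (2, 6), (3, 5), (3, 6),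
      (5, 6)] [0, 1, 2, 3, 4, 5, 6] 7 s t := by
  decide +kernel

theorem tutte_second : triG.tutte = twoG.tutte := by
  apply tutte_eq
  intro s hs t ht
  rw [num_eq triG (fun e => triL.get e) (fun e => rfl), num_eq twoG (fun e => twoL.get e)
    (fun e => rfl)]
  exact cnt_second s hs t ht

/-- Can `v` be reached from `u` in at most `k` steps through vertices outside `S`? -/
def within {n : ℕ} (L : List (Fin n × Fin n)) (S : Finset (Fin n)) :
    ℕ → Fin n → Fin n → Bool
  | 0, u, v => u == v
  | k + 1, u, v => u == v ||
      (List.finRange n).any (fun w => !(decide (w ∈ S)) && adjB L u w && within L S k w v)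

theorem within_sound {n : ℕ} (L : List (Fin n × Fin n)) (S : Finset (Fin n)) (k : ℕ) :
    ∀ (u v : Fin n) (hu : u ∉ S) (hv : v ∉ S), within L S k u v = true →
      ((ofList L).simple.induce {v | v ∉ S}).Reachable ⟨u, hu⟩ ⟨v, hv⟩ := by
  induction k with
  | zero =>
    intro u v hu hv h
    rw [within, beq_iff_eq] at h
    subst h
    exact SimpleGraph.Reachable.refl _
  | succ k ih =>
    intro u v hu hv h
    rw [within, Bool.or_eq_true, beq_iff_eq, List.any_eq_true] at h
    rcases h with h | ⟨w, _, h⟩
    · subst h
      exact SimpleGraph.Reachable.refl _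
    · rw [Bool.and_eq_true, Bool.and_eq_true, Bool.not_eq_true', decide_eq_false_iff_not] at h
      obtain ⟨⟨hw, huw⟩, hwv⟩ := h
      have hadj : ((ofList L).simple.induce {v | v ∉ S}).Adj ⟨u, hu⟩ ⟨w, hw⟩ :=
        (adj_ofList L u w).2 huw
      exact hadj.reachable.trans (ih w v hw hv hwv)

theorem within_triL : ∀ S : Finset (Fin 7), S.card ≤ 2 →
    ∃ u, u ∉ S ∧ ∀ v, v ∉ S → within triL S 4 u v = true := by
  decide +kernel

theorem is3Connected_triG : triG.Is3Connected := by
  refine ⟨by rw [Fintype.card_fin]; norm_num, fun S hS => ?_⟩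
  obtain ⟨u, hu, h⟩ := within_triL S hS
  rw [SimpleGraph.connected_iff]
  refine ⟨?_, ⟨⟨u, hu⟩⟩⟩
  rintro ⟨v, hv⟩ ⟨w, hw⟩
  exact (within_sound triL S 4 u v hu hv (h v hv)).symm.trans
    (within_sound triL S 4 u w hu hw (h w hw))

theorem connected_of_within {n : ℕ} (L : List (Fin n × Fin n)) (u : Fin n)
    (h : ∀ v, within L ∅ 4 u v = true) : (ofList L).IsConnected := by
  rw [MGraph.IsConnected, SimpleGraph.connected_iff]
  refine ⟨?_, ⟨u⟩⟩
  have key : ∀ v, (ofList L).simple.Reachable u v := by
    intro v
    have := within_sound L ∅ 4 u v (Finset.notMem_empty u) (Finset.notMem_empty v) (h v)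
    exact this.map (SimpleGraph.Embedding.induce _).toHom
  exact fun v w => (key v).symm.trans (key w)

theorem connected_triG : triG.IsConnected :=
  connected_of_within triL 0 (by decide +kernel)

theorem connected_twoG : twoG.IsConnected :=
  connected_of_within twoL 0 (by decide +kernel)

theorem connected_outG : outG.IsConnected :=
  connected_of_within outL 0 (by decide +kernel)

theorem connected_nonG : nonG.IsConnected :=
  connected_of_within nonL 0 (by decide +kernel)

theorem not_is3Connected_twoG : ¬ twoG.Is3Connected := by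
  rintro ⟨_, h⟩
  have hc := (h {3, 4} (by decide)).preconnected ⟨0, by decide⟩ ⟨1, by decide⟩
  obtain ⟨p⟩ := hc
  have key : ∀ v : Fin 7, v ∉ ({3, 4} : Finset (Fin 7)) → adjB twoL 0 v = true → False := by
    decide
  cases p with
  | cons hadj q =>
    rename_i v
    exact key v.1 v.2 ((adj_ofList twoL 0 v.1).1 hadj)

/-- **Disproof of both statements.** (Q1) There are Tutte-equivalent graphs, one outerplanar and
the other not outerplanar. (Q2) There are connected Tutte-equivalent graphs, one 3-connected and
the other not 3-connected. -/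
theorem result :
    (∃ G H : MGraph (Fin 6) (Fin 10), G.IsConnected ∧ H.IsConnected ∧ G.tutte = H.tutte ∧
      G.IsOuterplanar ∧ ¬ H.IsOuterplanar) ∧
    (∃ G H : MGraph (Fin 7) (Fin 12), G.IsConnected ∧ H.IsConnected ∧ G.tutte = H.tutte ∧
      G.Is3Connected ∧ ¬ H.Is3Connected) :=
  ⟨⟨outG, nonG, connected_outG, connected_nonG, tutte_first, outerplanar_outG,
      not_outerplanar_nonG⟩,
    ⟨triG, twoG, connected_triG, connected_twoG, tutte_second, is3Connected_triG,
      not_is3Connected_twoG⟩⟩

end Pool.Agent.Results.MP_f03b0a_co.TutteEquivalent
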